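import Mathlib
import Pool.Agent.H87.D2GDef
import Pool.Agent.H87.D2G1

namespace Pool.Agent.Results.MP_146262_an.Q2Yes

open Pool.Agent.H87.D2G

/-- The class of spaces with the diametral diameter two property is a countable intersection of
open subsets of the space of pseudonorms coding infinite-dimensional separable Banach spaces. -/
theorem result : IsGδ classDD2P := by
  simpa only [classDD2P, DD2P_iff] using gdelta zero_le_one le_rfl

end Pool.Agent.Results.MP_146262_an.Q2Yes
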